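import Pool.Agent.Helper12.VW.Defs

open Polynomial NumberField

namespace Pool.Agent.Helper12.VW

theorem g8_coeff {R : Type*} [Semiring R] {n : ℕ} (a : Fin (n + 1) → R) (i : Fin (n + 1)) :
    (toPoly a).coeff (i : ℕ) = a i := by
  unfold toPoly
  rw [finsetSum_coeff, Finset.sum_eq_single i]
  · simp
  · intro j _ hj
    rw [coeff_C_mul, coeff_X_pow, if_neg (fun h => hj (Fin.ext h.symm)), mul_zero]
  · intro h; exact absurd (Finset.mem_univ i) h

theorem g8_inj {R : Type*} [Semiring R] {n : ℕ} {a b : Fin (n + 1) → R}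
    (h : toPoly a = toPoly b) : a = b := by
  funext i
  rw [← g8_coeff a i, ← g8_coeff b i, h]

/-- a primitive polynomial is determined by the monic factor and the sign -/
theorem g8_det {n : ℕ} {a b : Fin (n + 1) → ℤ} (ha : a (Fin.last n) ≠ 0)
    (hb : b (Fin.last n) ≠ 0) (hpa : (toPoly a).IsPrimitive) (hpb : (toPoly b).IsPrimitive)
    (hs : 0 < a (Fin.last n) ↔ 0 < b (Fin.last n)) {G : ℂ[X]}
    (h1 : (toPoly a).map (Int.castRingHom ℂ) = C ((a (Fin.last n) : ℤ) : ℂ) * G)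
    (h2 : (toPoly b).map (Int.castRingHom ℂ) = C ((b (Fin.last n) : ℤ) : ℂ) * G) : a = b := by
  have h3 : C (b (Fin.last n)) * toPoly a = C (a (Fin.last n)) * toPoly b := by
    apply map_injective (Int.castRingHom ℂ) Int.cast_injective
    rw [Polynomial.map_mul, Polynomial.map_mul, h1, h2, map_C, map_C]
    simp only [eq_intCast]
    ring
  have h4 := congrArg content h3
  rw [content_C_mul, content_C_mul, hpa.content_eq_one, hpb.content_eq_one, mul_one, mul_one,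
    ← Int.abs_eq_normalize, ← Int.abs_eq_normalize] at h4
  have h5 : b (Fin.last n) = a (Fin.last n) := by
    rcases lt_or_gt_of_ne ha with h | h
    · have h' : b (Fin.last n) < 0 := by
        rcases lt_or_gt_of_ne hb with h6 | h6
        · exact h6
        · exact absurd (hs.mpr h6) (not_lt.mpr h.le)
      rw [abs_of_neg h, abs_of_neg h'] at h4
      omega
    · rw [abs_of_pos h, abs_of_pos (hs.mp h)] at h4
      exact h4
  rw [h5] at h3
  have h6 : C (a (Fin.last n)) ≠ (0 : ℤ[X]) := by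
    rw [Ne, C_eq_zero]; exact ha
  exact g8_inj (mul_left_cancel₀ h6 h3)

/-- the final estimate -/
theorem g8_final {H C5 C7 c' ε : ℝ} {k m : ℕ} (hk : 2 ≤ k) (hH : 1 ≤ H) (hC5 : 0 < C5)
    (hC7 : 0 < C7)
    (hc : 1 ≤ c') (hε : 0 < ε) (d : ℝ) (hd : 0 ≤ d) :
    C5 * H ^ (1 + ε / (m + 1)) * (2 * (C7 * (c' * H) ^ (ε / (m + 1)) *
      ((c' * H) ^ (1 / (k : ℝ)) + (c' * H) * d)) ^ m) ≤
    (C5 * 2 * (C7 * c' ^ (ε / (m + 1)) * c') ^ m) * H ^ (1 + ε) *
      (H ^ (1 / (k : ℝ)) + H * d) ^ m := by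
  have hH0 : 0 < H := by linarith
  have hc0 : 0 < c' := by linarith
  have hm : (0 : ℝ) < m + 1 := by positivity
  have e1 : (c' * H) ^ (1 / (k : ℝ)) ≤ c' * H ^ (1 / (k : ℝ)) := by
    rw [Real.mul_rpow hc0.le hH0.le]
    apply mul_le_mul_of_nonneg_right _ (by positivity)
    calc c' ^ (1 / (k : ℝ)) ≤ c' ^ (1 : ℝ) := by
          apply Real.rpow_le_rpow_of_exponent_le hc
          rw [div_le_one (by positivity)]
          have : (2 : ℝ) ≤ k := by exact_mod_cast hk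
          linarith
      _ = c' := Real.rpow_one _
  have e2 : (c' * H) ^ (1 / (k : ℝ)) + (c' * H) * d ≤ c' * (H ^ (1 / (k : ℝ)) + H * d) := by
    rw [mul_add]
    have : c' * H * d = c' * (H * d) := by ring
    linarith
  have e3 : C7 * (c' * H) ^ (ε / (m + 1)) * ((c' * H) ^ (1 / (k : ℝ)) + (c' * H) * d) ≤
      (C7 * c' ^ (ε / (m + 1)) * c') * H ^ (ε / (m + 1)) * (H ^ (1 / (k : ℝ)) + H * d) := by
    calc C7 * (c' * H) ^ (ε / (m + 1)) * ((c' * H) ^ (1 / (k : ℝ)) + (c' * H) * d) ≤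
        C7 * (c' * H) ^ (ε / (m + 1)) * (c' * (H ^ (1 / (k : ℝ)) + H * d)) := by
          gcongr
      _ = _ := by
          rw [Real.mul_rpow hc0.le hH0.le]; ring
  have e4 : (C7 * (c' * H) ^ (ε / (m + 1)) * ((c' * H) ^ (1 / (k : ℝ)) + (c' * H) * d)) ^ m ≤
      ((C7 * c' ^ (ε / (m + 1)) * c') * H ^ (ε / (m + 1)) * (H ^ (1 / (k : ℝ)) + H * d)) ^ m :=
    pow_le_pow_left₀ (by positivity) e3 m
  have e5 : H ^ (1 + ε / (m + 1)) * (H ^ (ε / (m + 1))) ^ m = H ^ (1 + ε) := by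
    rw [← Real.rpow_natCast, ← Real.rpow_mul hH0.le, ← Real.rpow_add hH0]
    congr 1
    field_simp
    ring
  calc _ ≤ C5 * H ^ (1 + ε / (m + 1)) * (2 *
        ((C7 * c' ^ (ε / (m + 1)) * c') * H ^ (ε / (m + 1)) * (H ^ (1 / (k : ℝ)) + H * d)) ^ m) := by
        gcongr
    _ = (C5 * 2 * (C7 * c' ^ (ε / (m + 1)) * c') ^ m) *
        (H ^ (1 + ε / (m + 1)) * (H ^ (ε / (m + 1))) ^ m) *
        (H ^ (1 / (k : ℝ)) + H * d) ^ m := by
        rw [mul_pow, mul_pow]; ring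
    _ = _ := by rw [e5]

/-- VW-G8 (with G3, G4, G5, G7 as hypotheses): polynomials attached to a given field. -/
theorem card_normForm_le_of
    (h3 : ∀ {n : ℕ} (a : Fin (n + 1) → ℤ) (_ : a (Fin.last n) ≠ 0)
      (_ : (toPoly a).IsPrimitive) (L : Type) [Field L] [NumberField L] (g : L[X])
      (_ : g.Monic) (_ : (toPoly a).map (Int.castRingHom ℂ) =
        C ((a (Fin.last n) : ℤ) : ℂ) * ∏ τ : L →+* ℂ, g.map τ),
      ∃ J : Ideal (𝓞 L), J ≠ ⊥ ∧ (J.absNorm : ℤ) ≤ |a (Fin.last n)| ∧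
        ∀ i : ℕ, ∀ y ∈ J, ∃ z : 𝓞 L, (y : L) * g.coeff i = z)
    (h4 : ∀ n : ℕ, ∃ c : ℝ, 0 < c ∧ ∀ (H : ℕ) (a : Fin (n + 1) → ℤ), a ∈ Box n H →
      a (Fin.last n) ≠ 0 → ∀ (L : Type) [Field L] [NumberField L] (g : L[X]), g.Monic →
      ((toPoly a).map (Int.castRingHom ℂ) =
        C ((a (Fin.last n) : ℤ) : ℂ) * ∏ τ : L →+* ℂ, g.map τ) →
      ∀ i : ℕ, ∏ τ : L →+* ℂ, max 1 ‖τ (g.coeff i)‖ ≤ c * H / |(a (Fin.last n) : ℝ)|)
    (h5 : ∀ (k : ℕ) (ε : ℝ) (_ : 0 < ε), ∃ C : ℝ, 0 < C ∧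
      ∀ (L : Type) [Field L] [NumberField L], Module.finrank ℚ L = k → ∀ X : ℕ, 1 ≤ X →
        {J : Ideal (𝓞 L) | J ≠ ⊥ ∧ J.absNorm ≤ X}.Finite ∧
        ({J : Ideal (𝓞 L) | J ≠ ⊥ ∧ J.absNorm ≤ X}.ncard : ℝ) ≤ C * (X : ℝ) ^ (1 + ε))
    (h7 : ∀ (k : ℕ) (_ : 2 ≤ k) (ε : ℝ) (_ : 0 < ε), ∃ C : ℝ, 0 < C ∧
      ∀ (L : Type) [Field L] [NumberField L], Module.finrank ℚ L = k → IsPrim L →
        ∀ (J : Ideal (𝓞 L)), J ≠ ⊥ → ∀ T : ℝ, 1 ≤ T →
        ∀ S : Finset L, (∀ z ∈ S, (∀ y ∈ J, ∃ x : 𝓞 L, (y : L) * z = x) ∧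
            (∏ τ : L →+* ℂ, max 1 ‖τ z‖) * J.absNorm ≤ T) →
          (S.card : ℝ) ≤ C * T ^ ε *
            (T ^ (1 / (k : ℝ)) + T * |(discr L : ℝ)| ^ (-(1 / (2 * (k : ℝ))))))
    (k m : ℕ) (hk : 2 ≤ k) (hm : 1 ≤ m) (n : ℕ) (hn : k * m = n) (ε : ℝ)
    (hε : 0 < ε) : ∃ C : ℝ, 0 < C ∧
    ∀ (L : Type) [Field L] [NumberField L], Module.finrank ℚ L = k → IsPrim L →
      ∀ H : ℕ, 1 ≤ H →
      ({a ∈ (Box n H : Set (Fin (n + 1) → ℤ)) | a (Fin.last n) ≠ 0 ∧ (toPoly a).IsPrimitive ∧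
        NormForm a L m}.ncard : ℝ) ≤ C * (H : ℝ) ^ (1 + ε) *
          ((H : ℝ) ^ (1 / (k : ℝ)) + H * |(discr L : ℝ)| ^ (-(1 / (2 * (k : ℝ))))) ^ m := by
  classical
  obtain ⟨c4, hc4, h4'⟩ := h4 n
  have hε' : 0 < ε / (m + 1) := by positivity
  obtain ⟨C5, hC5, h5'⟩ := h5 k (ε / (m + 1)) hε'
  obtain ⟨C7, hC7, h7'⟩ := h7 k hk (ε / (m + 1)) hε'
  set c' : ℝ := max 1 c4 with hc'
  have hc'1 : 1 ≤ c' := le_max_left _ _
  refine ⟨C5 * 2 * (C7 * c' ^ (ε / (m + 1)) * c') ^ m, by positivity, ?_⟩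
  intro L _ _ hL hprim H hH
  have hH1 : (1 : ℝ) ≤ H := by exact_mod_cast hH
  set A : Finset (Fin (n + 1) → ℤ) := (Box n H).filter (fun a => a (Fin.last n) ≠ 0 ∧
    (toPoly a).IsPrimitive ∧ NormForm a L m) with hA
  have hset : {a ∈ (Box n H : Set (Fin (n + 1) → ℤ)) | a (Fin.last n) ≠ 0 ∧
      (toPoly a).IsPrimitive ∧ NormForm a L m} = (A : Set (Fin (n + 1) → ℤ)) := by
    ext a; simp [hA]
  rw [hset, Set.ncard_coe_finset]
  -- choose the data
  have hg : ∀ a : Fin (n + 1) → ℤ, ∃ g : L[X], a ∈ A → g.Monic ∧ g.natDegree = m ∧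
      (toPoly a).map (Int.castRingHom ℂ) =
        C ((a (Fin.last n) : ℤ) : ℂ) * ∏ τ : L →+* ℂ, g.map τ := by
    intro a
    by_cases ha : a ∈ A
    · obtain ⟨g, hg⟩ := (Finset.mem_filter.mp ha).2.2.2
      exact ⟨g, fun _ => hg⟩
    · exact ⟨0, fun h => absurd h ha⟩
  choose g hg using hg
  have hJ : ∀ a : Fin (n + 1) → ℤ, ∃ J : Ideal (𝓞 L), a ∈ A → J ≠ ⊥ ∧
      (J.absNorm : ℤ) ≤ |a (Fin.last n)| ∧
      ∀ i : ℕ, ∀ y ∈ J, ∃ z : 𝓞 L, (y : L) * (g a).coeff i = z := by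
    intro a
    by_cases ha : a ∈ A
    · have h1 := (Finset.mem_filter.mp ha).2
      obtain ⟨J, hJ⟩ := h3 a h1.1 h1.2.1 L (g a) (hg a ha).1 (hg a ha).2.2
      exact ⟨J, fun _ => hJ⟩
    · exact ⟨⊥, fun h => absurd h ha⟩
  choose J hJ using hJ
  have habs : ∀ a ∈ A, |a (Fin.last n)| ≤ H := by
    intro a ha
    have h1 := (Finset.mem_filter.mp ha).1
    unfold Box at h1
    rw [Fintype.mem_piFinset] at h1
    have h2 := Finset.mem_Icc.mp (h1 (Fin.last n))
    rw [abs_le]; exact ⟨h2.1, h2.2⟩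
  -- the coefficients
  set S : Ideal (𝓞 L) → Finset L := fun I =>
    (A.filter (fun a => J a = I)).biUnion
      (fun a => (Finset.range m).image (fun i => (g a).coeff i)) with hS
  set B : ℝ := C7 * (c' * H) ^ (ε / (m + 1)) * ((c' * H) ^ (1 / (k : ℝ)) +
    (c' * H) * |(discr L : ℝ)| ^ (-(1 / (2 * (k : ℝ))))) with hB
  have hB0 : 0 ≤ B := by positivity
  have hScard : ∀ I ∈ A.image J, ((S I).card : ℝ) ≤ B := by
    intro I hI
    obtain ⟨a0, ha0, rfl⟩ := Finset.mem_image.mp hI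
    refine h7' L hL hprim (J a0) (hJ a0 ha0).1 (c' * H) ?_ (S (J a0)) ?_
    · nlinarith
    · intro z hz
      simp only [hS, Finset.mem_biUnion, Finset.mem_filter, Finset.mem_image,
        Finset.mem_range] at hz
      obtain ⟨a, ⟨ha, hJa⟩, i, -, rfl⟩ := hz
      rw [← hJa]
      refine ⟨(hJ a ha).2.2 i, ?_⟩
      have h1 := (Finset.mem_filter.mp ha)
      have h2 := h4' H a h1.1 h1.2.1 L (g a) (hg a ha).1 (hg a ha).2.2 i
      have h6 : (((J a).absNorm : ℤ) : ℝ) ≤ ((|a (Fin.last n)| : ℤ) : ℝ) := by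
        exact_mod_cast (hJ a ha).2.1
      rw [Int.cast_abs] at h6
      have h7 : (((J a).absNorm : ℤ) : ℝ) = ((J a).absNorm : ℝ) := by push_cast; rfl
      rw [h7] at h6
      have h8 : (0 : ℝ) < |(a (Fin.last n) : ℝ)| := by
        rw [abs_pos]; exact_mod_cast h1.2.1
      calc (∏ τ : L →+* ℂ, max 1 ‖τ ((g a).coeff i)‖) * ((J a).absNorm : ℝ) ≤
          (c4 * H / |(a (Fin.last n) : ℝ)|) * |(a (Fin.last n) : ℝ)| := by
            apply mul_le_mul h2 h6 (by positivity) (by positivity)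
        _ = c4 * H := by field_simp
        _ ≤ c' * H := by
            apply mul_le_mul_of_nonneg_right (le_max_right _ _) (by positivity)
  -- the fibres
  have hfib : ∀ I ∈ A.image J, ((A.filter (fun a => J a = I)).card : ℝ) ≤ 2 * B ^ m := by
    intro I hI
    have h1 : (A.filter (fun a => J a = I)).card ≤
        ((Finset.univ : Finset Bool) ×ˢ Fintype.piFinset (fun _ : Fin m => S I)).card := by
      apply Finset.card_le_card_of_injOn
        (fun a => (decide (0 < a (Fin.last n)), fun i : Fin m => (g a).coeff (i : ℕ)))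
      · intro a ha
        have ha' := Finset.mem_filter.mp (Finset.mem_coe.mp ha)
        simp only [Finset.coe_product, Set.mem_prod, Finset.coe_univ, Set.mem_univ, true_and,
          Finset.mem_coe, Fintype.mem_piFinset]
        intro i
        simp only [hS, Finset.mem_biUnion, Finset.mem_filter, Finset.mem_image,
          Finset.mem_range]
        exact ⟨a, ha', i, i.2, rfl⟩
      · intro a ha b hb hab
        have ha' := (Finset.mem_filter.mp (Finset.mem_coe.mp ha)).1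
        have hb' := (Finset.mem_filter.mp (Finset.mem_coe.mp hb)).1
        simp only [Prod.mk.injEq, decide_eq_decide] at hab
        have hgab : g a = g b := by
          ext i
          rcases lt_trichotomy i m with h | h | h
          · exact congrFun hab.2 ⟨i, h⟩
          · subst h
            have e1 := (hg a ha').1.coeff_natDegree
            have e2 := (hg b hb').1.coeff_natDegree
            rw [(hg a ha').2.1] at e1
            rw [(hg b hb').2.1] at e2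
            rw [e1, e2]
          · rw [coeff_eq_zero_of_natDegree_lt (by rw [(hg a ha').2.1]; exact h),
              coeff_eq_zero_of_natDegree_lt (by rw [(hg b hb').2.1]; exact h)]
        have e3 := (Finset.mem_filter.mp ha').2
        have e4 := (Finset.mem_filter.mp hb').2
        have e5 := (hg a ha').2.2
        rw [hgab] at e5
        exact g8_det e3.1 e4.1 e3.2.1 e4.2.1 hab.1 e5 (hg b hb').2.2
    rw [Finset.card_product, Fintype.card_piFinset, Finset.prod_const, Finset.card_univ,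
      Finset.card_univ, Fintype.card_bool, Fintype.card_fin] at h1
    calc ((A.filter (fun a => J a = I)).card : ℝ) ≤ ((2 * (S I).card ^ m : ℕ) : ℝ) := by
          exact_mod_cast h1
      _ = 2 * ((S I).card : ℝ) ^ m := by push_cast; ring
      _ ≤ 2 * B ^ m := by
          have := hScard I hI
          gcongr
  -- the number of ideals
  have himg : ((A.image J).card : ℝ) ≤ C5 * (H : ℝ) ^ (1 + ε / (m + 1)) := by
    obtain ⟨e1, e2⟩ := h5' L hL H hH
    refine le_trans ?_ e2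
    have e3 : ((A.image J : Finset (Ideal (𝓞 L))) : Set (Ideal (𝓞 L))) ⊆
        {J : Ideal (𝓞 L) | J ≠ ⊥ ∧ J.absNorm ≤ H} := by
      intro I hI
      obtain ⟨a, ha, rfl⟩ := Finset.mem_image.mp (Finset.mem_coe.mp hI)
      refine ⟨(hJ a ha).1, ?_⟩
      have := (hJ a ha).2.1.trans (habs a ha)
      exact_mod_cast this
    have e4 := Set.ncard_le_ncard e3 e1
    rw [Set.ncard_coe_finset] at e4
    exact_mod_cast e4
  have hsum : (A.card : ℝ) ≤ (A.image J).card * (2 * B ^ m) := by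
    have e1 : A.card = ∑ I ∈ A.image J, (A.filter (fun a => J a = I)).card :=
      Finset.card_eq_sum_card_image J A
    rw [e1]
    push_cast
    calc ∑ I ∈ A.image J, ((A.filter (fun a => J a = I)).card : ℝ) ≤
        ∑ I ∈ A.image J, (2 * B ^ m) := Finset.sum_le_sum hfib
      _ = _ := by rw [Finset.sum_const, nsmul_eq_mul]
  calc (A.card : ℝ) ≤ (A.image J).card * (2 * B ^ m) := hsum
    _ ≤ (C5 * (H : ℝ) ^ (1 + ε / (m + 1))) * (2 * B ^ m) := by
        apply mul_le_mul_of_nonneg_right himg (by positivity)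
    _ ≤ _ := g8_final hk hH1 hC5 hC7 hc'1 hε _ (by positivity)

end Pool.Agent.Helper12.VW
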